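import Mathlib

open Filter Topology

namespace Pool.Agent.Results.MP_12ef09_al.Full

/-- Vertices of the `d`-regular rooted tree are words over `Fin d`, the root is `[]` and the
children of `v` are the words `a :: v`.  A tree automorphism is a permutation of the vertices
fixing the root and sending children of `v` to children of the image of `v`. -/
def IsTreeAut {d : ℕ} (σ : Equiv.Perm (List (Fin d))) : Prop :=
  σ [] = [] ∧ ∀ (a : Fin d) (v : List (Fin d)), ∃ b : Fin d, σ (a :: v) = b :: σ v

/-- `G_n`: the set of restrictions of the elements of `G` to the level `L_n`. -/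
def levelImage {d : ℕ} (G : Subgroup (Equiv.Perm (List (Fin d)))) (n : ℕ) :
    Set (List.Vector (Fin d) n → List (Fin d)) :=
  {f | ∃ σ ∈ G, ∀ v, f v = σ v.1}

/-- proportion of elements of `G_n` fixing at least one vertex of `L_n` -/
noncomputable def fixProp {d : ℕ} (G : Subgroup (Equiv.Perm (List (Fin d)))) (n : ℕ) : ℝ :=
  (({f ∈ levelImage G n | ∃ v, f v = v.1}).ncard : ℝ) / ((levelImage G n).ncard : ℝ)

/-- `G` is closed in `Aut(T)` for the profinite topology: a tree automorphism that agrees on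
every level with some element of `G` lies in `G`. -/
def IsClosedInAut {d : ℕ} (G : Subgroup (Equiv.Perm (List (Fin d)))) : Prop :=
  ∀ σ : Equiv.Perm (List (Fin d)), IsTreeAut σ →
    (∀ k : ℕ, ∃ τ ∈ G, ∀ v : List (Fin d), v.length = k → σ v = τ v) → σ ∈ G

section
variable {e : ℕ} (act : ℕ → Prop) [DecidablePred act] (m : ℕ → ℕ)

abbrev A (e : ℕ) := Fin (e + 2)

def g (x : ℕ → List (A e) → A e) : List (A e) → List (A e)
  | [] => []
  | a :: v => (a + if act v.length then x v.length (v.take (m v.length)) else 0) :: g x v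

lemma g_len (x : ℕ → List (A e) → A e) : ∀ v, (g act m x v).length = v.length
  | [] => rfl
  | _ :: v => by simp [g, g_len x v]

lemma g_zero : ∀ v : List (A e), g act m 0 v = v
  | [] => rfl
  | _ :: v => by simp [g, g_zero v]

lemma g_congr (x y : ℕ → List (A e) → A e) :
    ∀ v : List (A e), (∀ l < v.length, x l = y l) → g act m x v = g act m y v
  | [], _ => rfl
  | a :: v, h => by
    simp only [g]
    rw [h v.length (by simp), g_congr x y v (fun l hl => h l (by simp; omega))]

variable {act m}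

lemma g_app (hm : ∀ n, m (n + 1) = if act n then 0 else m n + 1) (x : ℕ → List (A e) → A e)
    (u : List (A e)) : ∀ w : List (A e), w.length ≤ m (w.length + u.length) →
      g act m x (w ++ u) = w ++ g act m x u
  | [], _ => rfl
  | a :: w, h => by
    have h1 : (a :: w).length + u.length = (w.length + u.length) + 1 := by simp; omega
    rw [h1, hm] at h
    by_cases ha : act (w.length + u.length)
    · simp [ha] at h
    · rw [if_neg ha] at h
      simp only [List.cons_append, g, List.length_append, if_neg ha, add_zero]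
      rw [g_app hm x u w (by simpa using h)]

lemma g_take (hm : ∀ n, m (n + 1) = if act n then 0 else m n + 1) (x : ℕ → List (A e) → A e) :
    ∀ v : List (A e), (g act m x v).take (m v.length) = v.take (m v.length)
  | [] => rfl
  | a :: v => by
    by_cases ha : act v.length
    · simp [hm, ha]
    · simp [hm, ha, g, g_take hm x v]

lemma g_add (hm : ∀ n, m (n + 1) = if act n then 0 else m n + 1) (x y : ℕ → List (A e) → A e) :
    ∀ v : List (A e), g act m x (g act m y v) = g act m (x + y) v
  | [] => rfl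
  | a :: v => by
    simp only [g, g_len, g_take hm, g_add hm x y v, Pi.add_apply]
    congr 1
    split_ifs <;> abel

def gp (hm : ∀ n, m (n + 1) = if act n then 0 else m n + 1) (x : ℕ → List (A e) → A e) :
    Equiv.Perm (List (A e)) where
  toFun := g act m x
  invFun := g act m (-x)
  left_inv v := by rw [g_add hm, neg_add_cancel, g_zero]
  right_inv v := by rw [g_add hm, add_neg_cancel, g_zero]

def GG (hm : ∀ n, m (n + 1) = if act n then 0 else m n + 1) :
    Subgroup (Equiv.Perm (List (A e))) where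
  carrier := Set.range (gp hm)
  mul_mem' := by
    rintro _ _ ⟨x, rfl⟩ ⟨y, rfl⟩
    exact ⟨x + y, Equiv.ext fun v => (g_add hm x y v).symm⟩
  one_mem' := ⟨0, Equiv.ext fun v => g_zero act m v⟩
  inv_mem' := by
    rintro _ ⟨x, rfl⟩
    refine ⟨-x, Equiv.ext fun v => rfl⟩

lemma mem_level (hm : ∀ n, m (n + 1) = if act n then 0 else m n + 1) (n : ℕ)
    (f : List.Vector (A e) n → List (A e)) :
    f ∈ levelImage (GG hm) n ↔ ∃ x, ∀ v, f v = g act m x v.1 := by
  constructor
  · rintro ⟨_, ⟨x, rfl⟩, h⟩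
    exact ⟨x, h⟩
  · rintro ⟨x, h⟩
    exact ⟨_, ⟨x, rfl⟩, h⟩

def tk {n k : ℕ} (h : k ≤ n) (v : List.Vector (A e) n) : List.Vector (A e) k :=
  ⟨v.1.take k, by rw [List.length_take, v.2]; omega⟩

def Phi {n k : ℕ} (h : k ≤ n)
    (q : (List.Vector (A e) n → List (A e)) × (List.Vector (A e) k → A e)) :
    List.Vector (A e) (n + 1) → List (A e) :=
  fun v => (v.head + q.2 (tk h v.tail)) :: q.1 v.tail

lemma Phi_cons {n k : ℕ} (h : k ≤ n) (q) (a : A e) (v : List.Vector (A e) n) :
    Phi h q (List.Vector.cons a v) = (a + q.2 (tk h v)) :: q.1 v := by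
  simp [Phi]

lemma tk_app {n k : ℕ} (h : k ≤ n) (w : List.Vector (A e) k) (u : List (A e))
    (hu : (w.1 ++ u).length = n) : tk h ⟨w.1 ++ u, hu⟩ = w := by
  apply Subtype.ext
  show (w.1 ++ u).take k = w.1
  rw [List.take_append_of_le_length (by rw [w.2])]
  exact List.take_of_length_le (by rw [w.2])

lemma Phi_inj {n k : ℕ} (h : k ≤ n) : Function.Injective (Phi (e := e) h) := by
  rintro ⟨f, y⟩ ⟨f', y'⟩ hq
  have key : ∀ v, y (tk h v) = y' (tk h v) ∧ f v = f' v := by
    intro v
    have := congrFun hq (List.Vector.cons 0 v)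
    rw [Phi_cons, Phi_cons] at this
    simpa using this
  refine Prod.ext (funext fun v => (key v).2) (funext fun w => ?_)
  have hu : (w.1 ++ List.replicate (n - k) (0 : A e)).length = n := by
    rw [List.length_append, w.2, List.length_replicate]; omega
  have := (key ⟨_, hu⟩).1
  rwa [tk_app] at this

def Y (P : Prop) (k : ℕ) : Set (List.Vector (A e) k → A e) := {y | ¬ P → y = 0}

lemma vcases {n : ℕ} (v : List.Vector (A e) (n + 1)) : ∃ a u, v = List.Vector.cons a u :=
  ⟨v.head, v.tail, (List.Vector.cons_head_tail v).symm⟩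

lemma g_cons {n : ℕ} (h : m n ≤ n) (x : ℕ → List (A e) → A e) (a : A e)
    (u : List.Vector (A e) n) : g act m x (List.Vector.cons a u).1 =
      (a + if act n then x n (tk h u).1 else 0) :: g act m x u.1 := by
  obtain ⟨u, rfl⟩ := u
  rfl

lemma level_succ (hm : ∀ n, m (n + 1) = if act n then 0 else m n + 1) (n : ℕ) (h : m n ≤ n) :
    levelImage (GG (e := e) hm) (n + 1) =
      Phi h '' (levelImage (GG hm) n ×ˢ Y (act n) (m n)) := by
  ext f
  rw [mem_level]
  constructor
  · rintro ⟨x, hx⟩
    refine ⟨(fun v => g act m x v.1, fun w => if act n then x n w.1 else 0),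
      ⟨(mem_level hm _ _).2 ⟨x, fun _ => rfl⟩, fun ha => funext fun w => if_neg ha⟩, ?_⟩
    funext v
    obtain ⟨a, u, rfl⟩ := vcases v
    rw [Phi_cons, hx, g_cons h]
  · rintro ⟨⟨f, y⟩, ⟨hf, hy⟩, rfl⟩
    obtain ⟨x, hx⟩ := (mem_level hm _ _).1 hf
    refine ⟨Function.update x n (fun w => if hw : w.length = m n then y ⟨w, hw⟩ else 0), ?_⟩
    intro v
    obtain ⟨a, u, rfl⟩ := vcases v
    rw [Phi_cons, g_cons h, Function.update_self, dif_pos (tk h u).2]
    congr 1
    · congr 1
      by_cases ha : act n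
      · rw [if_pos ha]; rfl
      · rw [if_neg ha]; exact congrFun (hy ha) _
    · refine (hx u).trans ?_
      apply g_congr
      intro l hl
      rw [Function.update_of_ne (by rw [u.2] at hl; omega)]

lemma fix_succ (hm : ∀ n, m (n + 1) = if act n then 0 else m n + 1) (n : ℕ) (h : m n ≤ n) :
    {f ∈ levelImage (GG (e := e) hm) (n + 1) | ∃ v, f v = v.1} =
      Phi h '' ({f ∈ levelImage (GG hm) n | ∃ v, f v = v.1} ×ˢ
        {y ∈ Y (act n) (m n) | ∃ w, y w = 0}) := by
  ext f
  rw [level_succ hm n h]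
  constructor
  · rintro ⟨⟨⟨f, y⟩, ⟨hf, hy⟩, rfl⟩, v, hv⟩
    obtain ⟨a, u, rfl⟩ := vcases v
    rw [Phi_cons] at hv
    have hv' : (a + y (tk h u)) :: f u = a :: u.1 := by
      rw [hv]; obtain ⟨u, rfl⟩ := u; rfl
    simp only [List.cons.injEq, add_eq_left] at hv'
    exact ⟨(f, y), ⟨⟨hf, u, hv'.2⟩, hy, _, hv'.1⟩, rfl⟩
  · rintro ⟨⟨f, y⟩, ⟨⟨hf, u, hu⟩, hy, w, hw⟩, rfl⟩
    refine ⟨⟨(f, y), ⟨hf, hy⟩, rfl⟩, ?_⟩
    obtain ⟨x, hx⟩ := (mem_level hm _ _).1 hf
    have l1 : (u.1.take (m n)).length = m n := (tk h u).2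
    have l2 : (u.1.drop (m n)).length = n - m n := by rw [List.length_drop, u.2]
    have e1 := g_app hm x (u.1.drop (m n)) (u.1.take (m n))
      (by rw [l1, l2, show m n + (n - m n) = n by omega])
    rw [List.take_append_drop, ← hx u, hu] at e1
    have e2 : g act m x (u.1.drop (m n)) = u.1.drop (m n) := by
      apply List.append_cancel_left (as := u.1.take (m n))
      rw [← e1, List.take_append_drop]
    have hl : (w.1 ++ u.1.drop (m n)).length = n := by
      rw [List.length_append, w.2, l2]; omega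
    have e3 := g_app hm x (u.1.drop (m n)) w.1
      (by rw [w.2, l2, show m n + (n - m n) = n by omega])
    refine ⟨List.Vector.cons 0 ⟨_, hl⟩, ?_⟩
    rw [Phi_cons, tk_app]
    show (0 + y w) :: f _ = 0 :: (w.1 ++ u.1.drop (m n))
    have e4 : f ⟨_, hl⟩ = w.1 ++ u.1.drop (m n) := (hx ⟨_, hl⟩).trans (e3.trans (by rw [e2]))
    rw [e4, show y w = 0 from hw, add_zero]

end

noncomputable def b (e k : ℕ) : ℝ := 1 - (((e : ℝ) + 1) / ((e : ℝ) + 2)) ^ ((e + 2) ^ k)

lemma ratio (e k : ℕ) (P : Prop) [Decidable P] :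
    (({y ∈ Y (e := e) P k | ∃ w, y w = 0}).ncard : ℝ) / ((Y (e := e) P k).ncard : ℝ) =
      if P then b e k else 1 := by
  classical
  by_cases hP : P
  · rw [if_pos hP]
    have h1 : Y (e := e) P k = Set.univ := by ext y; simp [Y, hP]
    have h2 : {y ∈ Y (e := e) P k | ∃ w, y w = 0} =
        ((Fintype.piFinset (fun _ : List.Vector (A e) k => Finset.univ.erase (0 : A e)))ᶜ :
          Finset (List.Vector (A e) k → A e)) := by
      ext y; simp [h1]
    rw [h2, h1, Set.ncard_coe_finset, Finset.card_compl, Set.ncard_univ, Nat.card_eq_fintype_card,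
      Nat.cast_sub (Finset.card_le_univ _), Fintype.card_piFinset, Fintype.card_fun, card_vector]
    simp only [Finset.prod_const, Finset.card_erase_of_mem (Finset.mem_univ _), Finset.card_univ,
      Fintype.card_fin, card_vector, b]
    rw [div_pow]
    push_cast
    field_simp
  · rw [if_neg hP]
    have h1 : Y (e := e) P k = {0} := by ext y; simp [Y, hP]
    have h2 : {y ∈ Y (e := e) P k | ∃ w, y w = 0} = {0} := by
      ext y
      simp only [h1, Set.mem_singleton_iff, Set.mem_ofPred_eq]
      exact ⟨fun h => h.1, fun h => ⟨h, List.Vector.replicate k 0, by rw [h]; rfl⟩⟩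
    rw [h2, h1]; simp

lemma q_lt (e : ℕ) : 0 < ((e : ℝ) + 1) / ((e : ℝ) + 2) ∧ ((e : ℝ) + 1) / ((e : ℝ) + 2) < 1 :=
  ⟨by positivity, by rw [div_lt_one (by positivity)]; linarith⟩

lemma b_lt (e k : ℕ) : b e k < 1 := by
  have := pow_pos (q_lt e).1 ((e + 2) ^ k)
  unfold b; linarith

lemma b_nonneg (e k : ℕ) : 0 ≤ b e k := by
  have := pow_le_one₀ (n := (e + 2) ^ k) (q_lt e).1.le (q_lt e).2.le
  unfold b; linarith

def act0 : ℕ → Prop := fun _ => True
def m0 : ℕ → ℕ := fun _ => 0
instance : DecidablePred act0 := fun _ => isTrue trivial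
@[simp] lemma act0_eq (n : ℕ) : act0 n = True := rfl
@[simp] lemma m0_eq (n : ℕ) : m0 n = 0 := rfl

lemma hm0 : ∀ n : ℕ, m0 (n + 1) = if act0 n then 0 else m0 n + 1 := fun _ => by simp

lemma fix_eq (e n : ℕ) : fixProp (GG (e := e) hm0) n = b e 0 ^ n := by
  induction n with
  | zero =>
    have l0 : levelImage (GG (e := e) hm0) 0 = {fun _ => []} := by
      ext f
      rw [mem_level]
      constructor
      · rintro ⟨x, hx⟩
        funext v
        rw [hx, List.length_eq_zero_iff.1 v.2]; rfl
      · rintro rfl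
        exact ⟨0, fun v => by rw [g_zero, List.length_eq_zero_iff.1 v.2]⟩
    have l1 : {f ∈ levelImage (GG (e := e) hm0) 0 | ∃ v, f v = v.1} = {fun _ => []} := by
      ext f
      simp only [l0, Set.mem_singleton_iff, Set.mem_ofPred_eq]
      exact ⟨fun h => h.1, fun h => ⟨h, List.Vector.nil, by rw [h]; rfl⟩⟩
    rw [fixProp, l1, l0]; simp
  | succ n ih =>
    rw [fixProp, fix_succ hm0 n (Nat.zero_le n), level_succ hm0 n (Nat.zero_le n),
      Set.ncard_image_of_injective _ (Phi_inj _), Set.ncard_image_of_injective _ (Phi_inj _),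
      Set.ncard_prod, Set.ncard_prod, Nat.cast_mul, Nat.cast_mul, ← div_mul_div_comm, ratio]
    rw [fixProp] at ih
    rw [ih, pow_succ]
    simp

lemma closed (e : ℕ) : IsClosedInAut (GG (e := e) hm0) := by
  intro σ hσ h
  refine ⟨fun l _ => (σ (0 :: List.replicate l 0)).headD 0, Equiv.ext fun v => ?_⟩
  show g _ _ _ v = σ v
  induction v with
  | nil => exact hσ.1.symm
  | cons a v ih =>
    obtain ⟨c, hc⟩ := hσ.2 a v
    obtain ⟨_, ⟨y, rfl⟩, hy⟩ := h (v.length + 1)
    have e1 : σ (a :: v) = g _ _ y (a :: v) := hy (a :: v) rfl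
    have e2 : σ (0 :: List.replicate v.length 0) = g _ _ y (0 :: List.replicate v.length 0) :=
      hy _ (by simp)
    rw [hc] at e1
    simp only [g, act0_eq, m0_eq, if_true, List.take_zero, List.cons.injEq,
      List.length_replicate] at e1 e2
    simp only [g, act0_eq, if_true]
    rw [ih, hc, e2, e1.1]
    simp

theorem result (d : ℕ) (hd : 2 ≤ d) :
    ∃ G : Subgroup (Equiv.Perm (List (Fin d))), (∀ σ ∈ G, IsTreeAut σ) ∧ IsClosedInAut G ∧
      Tendsto (fixProp G) atTop (𝓝 0) ∧
      ∀ (n : ℕ) (t : Fin n → Equiv.Perm (List (Fin d))), (∀ i, t i ∈ G) →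
        (∀ k, 1 / (d : ℝ) ^ n ≤ fixProp (Subgroup.closure (Set.range t)) k) ∧
        ¬ Tendsto (fixProp (Subgroup.closure (Set.range t))) atTop (𝓝 0) := by
  classical
  obtain ⟨e, rfl⟩ : ∃ e, d = e + 2 := ⟨d - 2, by omega⟩
  refine ⟨GG hm0, ?_, closed e, ?_, ?_⟩
  · rintro _ ⟨x, rfl⟩
    exact ⟨rfl, fun a v => ⟨_, rfl⟩⟩
  · rw [show fixProp (GG (e := e) hm0) = fun n => b e 0 ^ n from funext (fix_eq e)]
    exact tendsto_pow_atTop_nhds_zero_of_lt_one (b_nonneg _ _) (b_lt _ _)
  · intro n t ht
    choose y hy using ht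
    let _ : CommRing (A e) := inferInstanceAs (CommRing (ZMod (e + 2)))
    let s : (Fin n → A e) → ℕ → List (A e) → A e := fun c l w => ∑ i, c i * y i l w
    have hH : ∀ σ ∈ Subgroup.closure (Set.range t), ∃ c, σ = gp hm0 (s c) := by
      intro σ hσ
      induction hσ using Subgroup.closure_induction with
      | mem σ h =>
        obtain ⟨i, rfl⟩ := h
        refine ⟨Pi.single i 1, ?_⟩
        rw [← hy i]
        congr 1
        funext l w
        simp [s, Pi.single_apply]
      | one =>
        refine ⟨0, Equiv.ext fun v => ?_⟩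
        have : s 0 = 0 := by funext l w; simp [s]
        rw [this]
        exact (g_zero _ _ v).symm
      | mul σ τ _ _ h1 h2 =>
        obtain ⟨c, rfl⟩ := h1
        obtain ⟨c', rfl⟩ := h2
        refine ⟨c + c', Equiv.ext fun v => ?_⟩
        have : s (c + c') = s c + s c' := by
          funext l w; simp [s, add_mul, Finset.sum_add_distrib]
        rw [this]
        exact g_add hm0 _ _ v
      | inv σ _ h1 =>
        obtain ⟨c, rfl⟩ := h1
        refine ⟨-c, Equiv.ext fun v => ?_⟩
        have : s (-c) = -s c := by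
          funext l w; simp [s]
        rw [this]
        rfl
    have hb : ∀ k, 1 / ((e + 2 : ℕ) : ℝ) ^ n ≤ fixProp (Subgroup.closure (Set.range t)) k := by
      intro k
      let r : (Fin n → A e) → List.Vector (A e) k → List (A e) := fun c v => gp hm0 (s c) v.1
      have hsub : levelImage (Subgroup.closure (Set.range t)) k ⊆ r '' Set.univ := by
        rintro f ⟨σ, hσ, hf⟩
        obtain ⟨c, rfl⟩ := hH σ hσ
        exact ⟨c, trivial, (funext hf).symm⟩
      have hfin : (r '' Set.univ).Finite := Set.finite_univ.image _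
      have hfin2 := hfin.subset hsub
      have h1 : (levelImage (Subgroup.closure (Set.range t)) k).ncard ≤ (e + 2) ^ n := by
        refine (Set.ncard_le_ncard hsub hfin).trans ((Set.ncard_image_le Set.finite_univ).trans ?_)
        simp [Set.ncard_univ]
      have hid : (fun v : List.Vector (A e) k => v.1) ∈
          levelImage (Subgroup.closure (Set.range t)) k := ⟨1, one_mem _, fun _ => rfl⟩
      have h2 : 0 < (levelImage (Subgroup.closure (Set.range t)) k).ncard :=
        (Set.ncard_pos hfin2).2 ⟨_, hid⟩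
      have h3 : 0 < ({f ∈ levelImage (Subgroup.closure (Set.range t)) k | ∃ v, f v = v.1}).ncard :=
        (Set.ncard_pos (hfin2.subset (Set.sep_subset _ _))).2
          ⟨_, hid, List.Vector.replicate k 0, rfl⟩
      unfold fixProp
      apply div_le_div₀ (by positivity) (by exact_mod_cast h3) (by exact_mod_cast h2)
      exact_mod_cast h1
    refine ⟨hb, fun hl => ?_⟩
    have := ge_of_tendsto' hl hb
    have hp : (0 : ℝ) < 1 / ((e + 2 : ℕ) : ℝ) ^ n := by positivity
    linarith

end Pool.Agent.Results.MP_12ef09_al.Full
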